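import Pool.Agent.Y116.UV.KT

/-!
# The conjecture of Bass and the cubic hypersurfaces of tripartite hypergraphs

A finite set `H` of triples `(i, j, k)` (a tripartite hypergraph) defines the affine cubic hypersurface
`∑_{(i, j, k) ∈ H} x_i y_j z_k = 1` over `ℤ`; it is regular. The groups `K'_n(X)` of all regular
schemes `X` of finite type over `ℤ` are finitely generated (the conjecture of Bass) if and only if the
groups `K'_n(X)` of all schemes `X` of finite type over `ℤ` are finitely generated, and if and only if
the `K`-groups of the rings `ℤ[x, y, z] / (∑_{(i, j, k) ∈ H} x_i y_j z_k - 1)` are finitely generated,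
for all `H`.

The properties of the groups `K'_n` that are used (`IsKTheory`) are theorems of Quillen: invariance under
isomorphisms, localisation sequences, invariance under affine bundles, the retraction from `X × 𝔾_m`
to `X`, and finite generation of the groups `K_n(ℤ)`.
-/

namespace Pool.Agent.Results.MP_e17fa799_al.HypergraphHypersurfaces

open Pool.Agent.Y116.UV

/-- The conjecture of Bass for all regular schemes of finite type over `ℤ` is equivalent to the same
assertion for all schemes of finite type over `ℤ`, and to the one for the hypersurfaces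
`∑_{(i, j, k) ∈ H} x_i y_j z_k = 1`; these hypersurfaces are regular. -/
theorem result (G : KTheory ℤ) (hG : IsKTheory G) :
    List.TFAE [
      ∀ X : Sch ℤ, FT False X → IsReg X → KFG G X,
      ∀ X : Sch ℤ, FT False X → KFG G X,
      ∀ (a b c : ℕ) (H : Finset (Fin a × Fin b × Fin c)), KFG G (tripS ℤ H)] ∧
    ∀ (a b c : ℕ) (H : Finset (Fin a × Fin b × Fin c)), IsReg (tripS ℤ H) := by
  refine ⟨?_, fun a b c H => isReg_trip H⟩
  tfae_have 1 → 3 := fun h a b c H => h _ (ft_aff False) (isReg_trip H)
  tfae_have 3 → 2 := fun h X hX => kfg_all_int (fun n => ⟨n, Int.cast_id⟩) hG h X hX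
  tfae_have 2 → 1 := fun h X hX _ => h X hX
  tfae_finish

end Pool.Agent.Results.MP_e17fa799_al.HypergraphHypersurfaces
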