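import Pool.Agent.Y456.LG.Bass

/-!
# The conjecture of Bass: high `K`-groups of linear sections of `GL_m`

Let `M` be a square matrix of polynomials over `ℤ` each of whose entries is `0`, `1` or a variable
(`IsPattern`; each of the `d` variables occurs). The points `x` of the affine space `𝔸^d` over `ℤ` such that
`M(x)` is invertible form the affine regular scheme `secGL M = Spec ℤ[x_1, …, x_d][1 / det M]`; it is the
intersection of `GL_m` with an affine linear space with equations `g_ij = 0`, `g_ij = 1`, `g_ij = g_kl`.

1. For every `N`: the conjecture of Bass (`K'_n(X)` is finitely generated for all regular `X` of finite type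
   over `ℤ` and all `n ≥ 0`) is equivalent to finite generation of the groups `K_n(ℤ[x][1 / det M])` for
   all patterns `M` and all `n ≥ N`.
2. For each `d`: the groups `K'_n(A)` are finitely generated for all `n` and all rings `A` generated by `d`
   elements if and only if the groups `K_n(ℤ[x][1 / det M])` are finitely generated for all `n` and all
   patterns `M` in `d` variables.

The properties of the groups `K'_n` that are used (`IsKGroups`) are theorems of Quillen.
-/

namespace Pool.Agent.Results.MP_e17fa799_al.LinearSectionsOfGL

open CategoryTheory AlgebraicGeometry MvPolynomial Pool.Agent.Y116.UV Pool.Agent.Y456.LG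

/-- The conjecture of Bass is equivalent to finite generation of the `K`-groups of degree at least `N` of
the smooth affine linear sections of `GL_m` given by patterns of zeros, ones and variables, for any `N`;
and all rings generated by `d` elements are equivalent to the linear sections in `d` variables. -/
theorem result (G : KTheory ℤ) (hG : IsKGroups G) :
    (∀ N : ℕ, (∀ X : Sch ℤ, FT False X → IsReg X → KFG G X) ↔
      ∀ (d m : ℕ) (M : Matrix (Fin m) (Fin m) (MvPolynomial (Fin d) ℤ)), IsPattern M →
        KFGFrom G N (secGL M)) ∧
    ∀ d : ℕ,
      ((∀ (A : Type) [CommRing A] [Algebra ℤ A] (a : Fin d → A),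
        Function.Surjective (MvPolynomial.aeval (R := ℤ) a) → KFG G (aff ℤ A)) ↔
      ∀ (m : ℕ) (M : Matrix (Fin m) (Fin m) (MvPolynomial (Fin d) ℤ)), IsPattern M →
        KFG G (secGL M)) :=
  ⟨fun N => ⟨fun h _ _ M _ n _ => h (secGL M) (ft_sec' M) (reg_sec M) n,
    fun h X hX _ => bass_all hG N h X hX⟩, bass_dim hG⟩

end Pool.Agent.Results.MP_e17fa799_al.LinearSectionsOfGL
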